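import Pool.Agent.U547.KP.P4

/-!
# Boxes with sides of comparable logarithmic size
-/

set_option autoImplicit false
set_option linter.unusedSectionVars false

open MeasureTheory Filter Topology
open scoped ENNReal

noncomputable section

namespace Pool.Agent.U547.KQ

open Pool.Agent.TH784.KE
open Pool.Agent.U547.KB
open Pool.Agent.U547.KP
open Pool.Agent.W761.Box (bx bx_add bx_mul bx_sum bx_mono bx_abs bx_const_le bx_nonneg bx_sub)
open Pool.Agent.TH784.AA (bxs mem_bxs vol vol_pos vol_nonneg card_bxs sum_fiber bxs_mono)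

/-- the growth `exp √M` -/
def gr (M : ℕ) : ℕ := ⌈Real.exp (Real.sqrt M)⌉₊ + 1

theorem gr_le (M : ℕ) : (gr M : ℝ) ≤ 3 * Real.exp (Real.sqrt M) := by
  have h1 : (⌈Real.exp (Real.sqrt M)⌉₊ : ℝ) < Real.exp (Real.sqrt M) + 1 :=
    Nat.ceil_lt_add_one (Real.exp_pos _).le
  have h2 : 1 ≤ Real.exp (Real.sqrt M) := Real.one_le_exp (Real.sqrt_nonneg _)
  unfold gr
  push_cast
  linarith

theorem gr_bound (k : ℕ) {κ : ℝ} (hκ : 0 < κ) (M : ℕ) :
    (gr M : ℝ) ^ k * Real.exp (-κ) ^ M ≤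
      (3 ^ k * Real.exp ((k : ℝ) ^ 2 / (2 * κ))) * Real.exp (-(κ / 2)) ^ M := by
  have h1 : (gr M : ℝ) ^ k ≤ 3 ^ k * Real.exp (k * Real.sqrt M) := by
    refine (pow_le_pow_left₀ (Nat.cast_nonneg _) (gr_le M) k).trans (le_of_eq ?_)
    rw [mul_pow, ← Real.exp_nat_mul]
  have h2 : (k : ℝ) * Real.sqrt M ≤ κ / 2 * M + (k : ℝ) ^ 2 / (2 * κ) := by
    have h3 : Real.sqrt M ^ 2 = M := Real.sq_sqrt (Nat.cast_nonneg _)
    have h4 : 0 ≤ (κ * Real.sqrt M - k) ^ 2 / (2 * κ) := by positivity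
    have h5 : (κ * Real.sqrt M - k) ^ 2 / (2 * κ) =
        κ / 2 * Real.sqrt M ^ 2 + (k : ℝ) ^ 2 / (2 * κ) - k * Real.sqrt M := by
      field_simp
      ring
    rw [h5, h3] at h4
    linarith
  rw [← Real.exp_nat_mul, ← Real.exp_nat_mul]
  calc (gr M : ℝ) ^ k * Real.exp (M * -κ) ≤
        (3 ^ k * Real.exp (k * Real.sqrt M)) * Real.exp (M * -κ) :=
        mul_le_mul_of_nonneg_right h1 (Real.exp_pos _).le
    _ = 3 ^ k * Real.exp (k * Real.sqrt M + M * -κ) := by rw [Real.exp_add]; ring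
    _ ≤ 3 ^ k * Real.exp ((k : ℝ) ^ 2 / (2 * κ) + M * -(κ / 2)) := by
        refine mul_le_mul_of_nonneg_left (Real.exp_le_exp.2 ?_) (by positivity)
        linarith
    _ = _ := by rw [Real.exp_add]; ring

variable {X : Type*} {mA mY mX : MeasurableSpace X} {μ : Measure X} [IsProbabilityMeasure μ]
variable {G : Type*} [Group G]
variable {Φ : G →* Equiv.Perm X} {ℓ : G → ℝ}
variable {J : Type*} [DecidableEq J]

/-- sums of one term along the good lines of a large cube -/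
theorem line_ae {k : ℕ} (hFl : Flow μ Φ) (hA : Filt mX mA Φ ℓ) (hY : Base mY mA Φ)
    {V : Finset J} {v : J} (hv : v ∈ V) {q : (Fin k → ℕ) → J → G} (l : Fin k) {F H : J → X → ℝ}
    {W : (Fin k → ℕ) → X → ℝ} {r s : G} {R : ℝ}
    (hsr : ℓ s ≤ ℓ r) (hR : ℓ r - ℓ s ≤ R) (hR0 : 0 < R)
    (hF : ∀ w ∈ V, Measurable[cm mA Φ r] (F w) ∧ ∀ x, |F w x| ≤ 1)
    (hH : CE μ (cm mA Φ s) (F v) (H v))
    (hW : ∀ n, Measurable[mY] (W n) ∧ ∀ x, |W n x| ≤ 1)
    {L : ℕ} (hL : 0 < L) {B : (Fin k → ℕ) → Prop}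
    (hc : ∀ n, ¬ B n → ∀ (a : ℝ) (T : Finset ℕ),
      (∀ t ∈ T, |ℓ (q (Function.update n l t) v) - a| < R) → T.card ≤ L) {η : ℝ} (hη : 0 < η) :
    ∀ᵐ x ∂μ, ∀ᶠ M : ℕ in atTop, ∀ n ∈ bxs (fun _ : Fin k => gr M), ¬ B n →
      |∑ t ∈ Finset.range M, DD V Φ ℓ R F H (W (Function.update n l t))
        (q (Function.update n l t)) v x| ≤ η * M := by
  classical
  set κ : ℝ := (η / (2 * L)) ^ 2 / 2 with hκ
  have hL' : (0 : ℝ) < L := by exact_mod_cast hL
  have hκ0 : 0 < κ := by positivity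
  let bad : ℕ → Set X := fun M => ⋃ n ∈ (bxs (fun _ : Fin k => gr M)).filter (fun n => ¬ B n),
    {x | η * M ≤ |∑ t ∈ Finset.range M, DD V Φ ℓ R F H (W (Function.update n l t))
      (q (Function.update n l t)) v x|}
  have hbad : ∀ M : ℕ, 0 < M → μ.real (bad M) ≤
      ((3 ^ k * Real.exp ((k : ℝ) ^ 2 / (2 * κ))) * Real.exp (-(κ / 2)) ^ M) * (L * 2) := by
    intro M hM
    have hM' : (0 : ℝ) < M := by exact_mod_cast hM
    refine (measureReal_biUnion_finset_le _ _).trans ?_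
    have h1 : ∀ n ∈ (bxs (fun _ : Fin k => gr M)).filter (fun n => ¬ B n), μ.real
        {x | η * M ≤ |∑ t ∈ Finset.range M, DD V Φ ℓ R F H (W (Function.update n l t))
          (q (Function.update n l t)) v x|} ≤
        L * (2 * Real.exp (-κ) ^ M) := by
      intro n hn
      have h2 := line_bound' hFl hA hY hv (p := fun m => q (Function.update n l m))
        (W := fun t => W (Function.update n l t)) hsr hR hR0 hF hH
        (fun t => hW _) hL (hc n (Finset.mem_filter.1 hn).2) hM (t := η * M) (by positivity)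
      refine h2.trans (le_of_eq ?_)
      congr 2
      rw [← Real.exp_nat_mul]
      congr 1
      rw [hκ]
      field_simp
    have hcd : (((bxs (fun _ : Fin k => gr M)).filter (fun n => ¬ B n)).card : ℝ) ≤
        (gr M : ℝ) ^ k := by
      have h3 : (((bxs (fun _ : Fin k => gr M)).filter (fun n => ¬ B n)).card : ℝ) ≤
          ((bxs (fun _ : Fin k => gr M)).card : ℝ) := by
        exact_mod_cast Finset.card_filter_le _ _
      rw [card_bxs] at h3
      refine h3.trans (le_of_eq ?_)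
      unfold vol
      rw [Finset.prod_const, Finset.card_univ, Fintype.card_fin]
    refine (Finset.sum_le_sum h1).trans ?_
    rw [Finset.sum_const, nsmul_eq_mul]
    calc _ ≤ (gr M : ℝ) ^ k * (L * (2 * Real.exp (-κ) ^ M)) :=
          mul_le_mul_of_nonneg_right hcd (by positivity)
      _ = ((gr M : ℝ) ^ k * Real.exp (-κ) ^ M) * (L * 2) := by ring
      _ ≤ _ := mul_le_mul_of_nonneg_right (gr_bound k hκ0 M) (by positivity)
  have hsummable : Summable fun M : ℕ => ((3 ^ k * Real.exp ((k : ℝ) ^ 2 / (2 * κ))) *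
      Real.exp (-(κ / 2)) ^ M) * ((L : ℝ) * 2) := by
    refine Summable.mul_right _ (Summable.mul_left _ ?_)
    refine summable_geometric_of_lt_one (Real.exp_pos _).le ?_
    rw [Real.exp_lt_one_iff]
    linarith
  have hfin : ∑' M, μ (bad (M + 1)) ≠ ⊤ := by
    have h3 : ∀ M, μ (bad (M + 1)) ≤ ENNReal.ofReal (((3 ^ k * Real.exp ((k : ℝ) ^ 2 / (2 * κ))) *
        Real.exp (-(κ / 2)) ^ (M + 1)) * ((L : ℝ) * 2)) := by
      intro M
      have h4 := hbad (M + 1) M.succ_pos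
      rw [measureReal_def] at h4
      rw [← ENNReal.ofReal_toReal (measure_ne_top μ (bad (M + 1)))]
      exact ENNReal.ofReal_le_ofReal h4
    refine ne_top_of_le_ne_top ?_ (ENNReal.tsum_le_tsum h3)
    exact ((summable_nat_add_iff 1).2 hsummable).tsum_ofReal_ne_top
  filter_upwards [ae_eventually_notMem hfin] with x hx
  obtain ⟨M₀, hM₀⟩ := eventually_atTop.1 hx
  refine eventually_atTop.2 ⟨M₀ + 1, fun M' hM' => ?_⟩
  obtain ⟨M, rfl⟩ : ∃ M, M' = M + 1 := ⟨M' - 1, by omega⟩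
  have hM := hM₀ M (by omega)
  intro n hn hnB
  by_contra hcon
  rw [not_le] at hcon
  apply hM
  exact Set.mem_biUnion (Finset.mem_filter.2 ⟨hn, hnB⟩) hcon.le

theorem abs_bx_le {k : ℕ} {N : Fin k → ℕ} {a b : (Fin k → ℕ) → ℝ} (h : ∀ n ∈ bxs N, |a n| ≤ b n) :
    |bx k N a| ≤ bx k N b :=
  bx_abs.trans (bx_mono_of h)

variable [Fintype J]

theorem log_bound {k : ℕ} {𝓕 : Filter (Fin k → ℕ)} (h𝓕 : 𝓕 ≤ atTop)
    (hgr : ∀ᶠ N in 𝓕, ∀ i j, N i ≤ gr (N j)) (hFl : Flow μ Φ) (hA : Filt mX mA Φ ℓ)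
    (hY : Base mY mA Φ)
    {S : Finset J} (hS : S.Nonempty) {d : J → Fin k} {q : (Fin k → ℕ) → J → G}
    (hq : Wide S (fun v => {d v}) fun n v => ℓ (q n v))
    {F H : J → X → ℝ} {r s : G} {R : ℝ} (hsr : ℓ s ≤ ℓ r) (hR : ℓ r - ℓ s ≤ R) (hR0 : 0 < R)
    (hF : ∀ v ∈ S, Measurable[cm mA Φ r] (F v)) (hF1 : ∀ v x, |F v x| ≤ 1)
    (hFY : ∀ v ∉ S, Measurable[mY] (F v)) (hH : ∀ v ∈ S, CE μ (cm mA Φ s) (F v) (H v))
    {η : ℝ} (hη : 0 < η) :
    ∀ᵐ x ∂μ, ∀ᶠ N : Fin k → ℕ in 𝓕,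
      |bx k N fun n => ∏ v, F v (Φ (q n v) x)| ≤
        η + bx k N fun n => errb Φ ℓ R H S (q n) x := by
  classical
  let W : (Fin k → ℕ) → X → ℝ := fun n x => ∏ v ∈ Sᶜ, F v (Φ (q n v) x)
  have hW : ∀ n, Measurable[mY] (W n) ∧ ∀ x, |W n x| ≤ 1 := by
    intro n
    refine ⟨Finset.measurable_fun_prod _ fun v hv => ?_, fun x =>
      prod_abs_le (fun w _ => hF1 w) _ x⟩
    exact (hFY v (Finset.mem_compl.1 hv)).comp (hY.inv _)
  set c : ℝ := S.card + 1 with hcdef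
  have hc0 : 0 < c := by positivity
  have hline' : ∀ v : J, ∃ K : ℕ, v ∈ S →
      (0 < K ∧ Null (Bad (fun n v => ℓ (q n v)) v (d v) R K)) := by
    intro v
    by_cases hv : v ∈ S
    · obtain ⟨K, hK, hB⟩ := hq.line v hv (d v) (Finset.mem_singleton_self _) R hR0
      exact ⟨K, fun _ => ⟨hK, hB⟩⟩
    · exact ⟨0, fun h => absurd h hv⟩
  choose K hK using hline'
  have hlines : ∀ᵐ x ∂μ, ∀ v ∈ S, ∀ᶠ M : ℕ in atTop, ∀ n ∈ bxs (fun _ : Fin k => gr M),
      ¬ Bad (fun n v => ℓ (q n v)) v (d v) R (K v) n →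
      |∑ t ∈ Finset.range M, DD S Φ ℓ R F H (W (Function.update n (d v) t))
        (q (Function.update n (d v) t)) v x| ≤ (η / (2 * c)) * M := by
    refine (ae_ball_iff S.countable_toSet).2 fun v hv => ?_
    refine line_ae hFl hA hY hv (d v) hsr hR hR0 (fun w hw => ⟨hF w hw, hF1 w⟩) (hH v hv) hW
      (hK v hv).1 (fun n hn a T hT => ?_) (by positivity)
    by_contra hcon
    exact hn ⟨a, T, hT, not_le.1 hcon⟩
  have hfr : ∀ᶠ N : Fin k → ℕ in 𝓕, ∀ v ∈ S,
      frac (Bad (fun n v => ℓ (q n v)) v (d v) R (K v)) N ≤ η / (4 * c) := by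
    refine (Finset.eventually_all S).2 fun v hv => ?_
    filter_upwards [(tendsto_order.mp ((hK v hv).2.mono_left h𝓕)).2 (η / (4 * c))
      (by positivity)] with N hN
    exact hN.le
  filter_upwards [hlines] with x hx
  have hx' : ∀ᶠ M : ℕ in atTop, ∀ v ∈ S, ∀ n ∈ bxs (fun _ : Fin k => gr M),
      ¬ Bad (fun n v => ℓ (q n v)) v (d v) R (K v) n →
      |∑ t ∈ Finset.range M, DD S Φ ℓ R F H (W (Function.update n (d v) t))
        (q (Function.update n (d v) t)) v x| ≤ (η / (2 * c)) * M :=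
    (Finset.eventually_all S).2 hx
  obtain ⟨M₀, hM₀⟩ := eventually_atTop.1 hx'
  have hbig : ∀ᶠ N : Fin k → ℕ in 𝓕, ∀ j, max M₀ 1 ≤ N j :=
    h𝓕 (eventually_atTop.2 ⟨fun _ => max M₀ 1, fun N hN j => hN j⟩)
  filter_upwards [hbig, hfr, hgr] with N hN hfrN hgrN
  have hN1 : ∀ j, 1 ≤ N j := fun j => (le_max_right _ _).trans (hN j)
  have hfac : ∀ n : Fin k → ℕ, ∏ v, F v (Φ (q n v) x) =
      (∏ v ∈ S, F v (Φ (q n v) x)) * W n x := by
    intro n
    show _ = _ * ∏ v ∈ Sᶜ, F v (Φ (q n v) x)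
    rw [← Finset.prod_mul_prod_compl S]
  have hDD : ∀ v ∈ S, |bx k N fun n => DD S Φ ℓ R F H (W n) (q n) v x| ≤ η / c := by
    intro v hv
    have hNpos : (0 : ℝ) < N (d v) := by
      have := hN1 (d v)
      positivity
    rw [bx_slice hN1 (d v)]
    refine (abs_bx_le (b := fun n => η / (2 * c) +
      2 * (if Bad (fun n v => ℓ (q n v)) v (d v) R (K v) n then (1 : ℝ) else 0))
      fun n hn => ?_).trans ?_
    · rw [abs_mul, abs_of_pos (inv_pos.2 hNpos)]
      by_cases hB : Bad (fun n v => ℓ (q n v)) v (d v) R (K v) n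
      · rw [if_pos hB, mul_one]
        have h1 : |∑ t ∈ Finset.range (N (d v)), DD S Φ ℓ R F H (W (Function.update n (d v) t))
            (q (Function.update n (d v) t)) v x| ≤ 2 * N (d v) := by
          refine (Finset.abs_sum_le_sum_abs _ _).trans ?_
          refine (Finset.sum_le_sum (g := fun _ => (2 : ℝ)) fun t _ => ?_).trans ?_
          · exact DD_abs (Φ := Φ) (ℓ := ℓ) (R := R) hv (fun w _ => hF1 w) (hH v hv).2.1
              (hW _).2 _ x
          · rw [Finset.sum_const, Finset.card_range, nsmul_eq_mul, mul_comm]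
        have h2 : (N (d v) : ℝ)⁻¹ * |∑ t ∈ Finset.range (N (d v)),
            DD S Φ ℓ R F H (W (Function.update n (d v) t))
            (q (Function.update n (d v) t)) v x| ≤ 2 := by
          rw [inv_mul_le_iff₀ hNpos, mul_comm]
          exact h1
        have h3 : 0 < η / (2 * c) := by positivity
        linarith
      · rw [if_neg hB, mul_zero, add_zero, inv_mul_le_iff₀ hNpos, mul_comm]
        refine hM₀ (N (d v)) ((le_max_left _ _).trans (hN _)) v hv n ?_ hB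
        rw [mem_bxs] at hn ⊢
        exact fun j => (hn j).trans_le (hgrN j (d v))
    · rw [bx_add, bx_mul]
      have h4 := bx_const_le (k := k) (N := N) (C := η / (2 * c)) (by positivity)
      have h5 := hfrN v hv
      rw [frac_eq] at h5
      have h6 : η / c = η / (2 * c) + 2 * (η / (4 * c)) := by
        field_simp
        ring
      rw [h6]
      exact add_le_add h4 (mul_le_mul_of_nonneg_left h5 (by norm_num))
  have hsplit : (bx k N fun n => ∏ v, F v (Φ (q n v) x)) =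
      ∑ v ∈ S, (bx k N fun n => DD S Φ ℓ R F H (W n) (q n) v x) +
      bx k N fun n => ((∏ v ∈ S, F v (Φ (q n v) x)) * W n x -
        ∑ v ∈ S, DD S Φ ℓ R F H (W n) (q n) v x) := by
    rw [← bx_sum, ← bx_add]
    congr 1
    funext n
    rw [hfac]
    ring
  rw [hsplit]
  refine (abs_add_le _ _).trans (add_le_add ?_ ?_)
  · refine (Finset.abs_sum_le_sum_abs _ _).trans ((Finset.sum_le_sum hDD).trans ?_)
    rw [Finset.sum_const, nsmul_eq_mul, mul_div_assoc', div_le_iff₀ hc0, hcdef]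
    nlinarith
  · exact abs_bx_le fun n _ => pointwise hS hR0 (fun w _ => hF1 w) (hW _).2 _ x

end Pool.Agent.U547.KQ
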