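import Pool.Agent.U547.KQ.Q2

/-!
# Averages of single functions along a filter of boxes
-/

set_option autoImplicit false
set_option linter.unusedSectionVars false

open MeasureTheory Filter Topology
open scoped ENNReal

noncomputable section

namespace Pool.Agent.U547.KQ

open Pool.Agent.TH784.KE
open Pool.Agent.U547.KB
open Pool.Agent.U547.KP
open Pool.Agent.W761.Box (bx bxc BM Good1 bx_nonneg bx_bound bx_const_le)

variable {k : ℕ}

theorem gr_of_log {N : Fin k → ℕ} {i j : Fin k} (h : Real.log (N i) ^ 2 ≤ N j) :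
    N i ≤ gr (N j) := by
  rcases Nat.eq_zero_or_pos (N i) with h0 | h0
  · rw [h0]
    exact Nat.zero_le _
  · have h1 : (1 : ℝ) ≤ N i := by exact_mod_cast h0
    have h2 : Real.log (N i) ≤ Real.sqrt (N j) := by
      have := Real.sqrt_le_sqrt h
      rwa [Real.sqrt_sq (Real.log_nonneg h1)] at this
    have h3 : (N i : ℝ) ≤ Real.exp (Real.sqrt (N j)) := by
      rw [← Real.exp_log (by linarith : (0 : ℝ) < N i)]
      exact Real.exp_le_exp.2 h2
    have h4 := h3.trans (Nat.le_ceil (Real.exp (Real.sqrt (N j))))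
    have h5 : N i ≤ ⌈Real.exp (Real.sqrt (N j))⌉₊ := by exact_mod_cast h4
    unfold gr
    omega

section maj

variable {X : Type*} {mX : MeasurableSpace X} {μ : Measure X} [IsProbabilityMeasure μ]
variable {𝓕 : Filter (Fin k → ℕ)}

theorem majF_of_maj (h𝓕 : 𝓕 ≤ atTop) {g : (Fin k → ℕ) → X → X} (h : Maj μ g) : MajF 𝓕 μ g := by
  intro K hK hKC hK0
  obtain ⟨E, h1, h2, h3, h4⟩ := h K hK hKC hK0
  refine ⟨E, h1, h2, h3, ?_⟩
  filter_upwards [h4] with x hx c hc
  exact h𝓕 (hx c hc)

theorem int_limF [𝓕.NeBot] [𝓕.IsCountablyGenerated] {φ : (Fin k → ℕ) → X → X}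
    (hφ : ∀ m, MeasurePreserving (φ m) μ μ)
    {G : X → ℝ} (hG : Measurable G) {C : ℝ} (hC : 0 ≤ C) (hb : ∀ x, |G x| ≤ C)
    (h0 : ∀ x, 0 ≤ G x) {γ : X → ℝ}
    (hγ : ∀ᵐ x ∂μ, Tendsto (fun N => bx k N (fun m => G (φ m x))) 𝓕 (𝓝 (γ x))) :
    0 ≤ᵐ[μ] γ ∧ Integrable γ μ ∧ ∫ x, γ x ∂μ ≤ ∫ x, G x ∂μ := by
  have hm : ∀ N, Measurable fun x => bx k N (fun m => G (φ m x)) := by
    intro N
    unfold bx
    exact (Finset.measurable_fun_sum _ fun m _ => hG.comp (hφ m).measurable).const_mul _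
  refine ⟨?_, ?_, ?_⟩
  · filter_upwards [hγ] with x hx
    exact ge_of_tendsto hx (Eventually.of_forall fun N => bx_nonneg fun m => h0 _)
  · have hms : AEStronglyMeasurable γ μ := aestronglyMeasurable_of_tendsto_ae 𝓕
        (fun N => (hm N).aestronglyMeasurable) hγ
    refine Integrable.of_bound hms C ?_
    filter_upwards [hγ] with x hx
    rw [Real.norm_eq_abs]
    exact le_of_tendsto hx.abs (Eventually.of_forall fun N => bx_bound hC fun m => hb _)
  have h1 := tendsto_integral_filter_of_dominated_convergence (l := 𝓕) (fun _ => C)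
    (Eventually.of_forall fun N => (hm N).aestronglyMeasurable)
    (Eventually.of_forall fun N => Eventually.of_forall fun x => by
      rw [Real.norm_eq_abs]
      exact bx_bound hC fun m => hb _)
    (integrable_const _) hγ
  refine le_of_tendsto h1 (Eventually.of_forall fun N => ?_)
  have hGi : Integrable G μ := Integrable.of_bound hG.aestronglyMeasurable C
    (Eventually.of_forall fun x => by
      rw [Real.norm_eq_abs]
      exact hb x)
  have h2 : ∀ m, ∫ x, G (φ m x) ∂μ = ∫ x, G x ∂μ := by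
    intro m
    have h3 := integral_map (μ := μ) (φ := φ m) (f := G)
      (hφ m).measurable.aemeasurable hG.aestronglyMeasurable
    rw [(hφ m).map_eq] at h3
    exact h3.symm
  have h4 : ∫ x, bx k N (fun m => G (φ m x)) ∂μ = bx k N (fun _ => ∫ x, G x ∂μ) := by
    unfold bx
    rw [integral_const_mul, integral_finsetSum]
    · rw [Finset.sum_congr rfl fun m _ => h2 m]
    · intro m _
      exact (hφ m).integrable_comp_of_integrable hGi
  rw [h4]
  exact bx_const_le (integral_nonneg h0)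

theorem majF_of_single [𝓕.IsCountablyGenerated] {g : (Fin k → ℕ) → X → X}
    (hg : ∀ m, MeasurePreserving (g m) μ μ)
    (h : ∀ H : X → ℝ, Measurable H → (∃ C : ℝ, ∀ x, |H x| ≤ C) →
      ∀ᵐ x ∂μ, ∃ L : ℝ, Tendsto (fun N => bx k N fun m => H (g m x)) 𝓕 (𝓝 L)) :
    MajF 𝓕 μ g := by
  classical
  intro K hK hKC hK0
  rcases eq_or_neBot 𝓕 with hbot | hne
  · refine ⟨fun _ => 0, Eventually.of_forall fun _ => le_rfl, integrable_zero _ _ _, ?_,
      Eventually.of_forall fun x c _ => ?_⟩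
    · rw [integral_zero]
      exact mul_nonneg (by norm_num) (integral_nonneg hK0)
    · rw [hbot]
      exact eventually_bot
  obtain ⟨C, hC⟩ := hKC
  have hC' : ∀ x, |K x| ≤ |C| := fun x => (hC x).trans (le_abs_self _)
  let L : X → ℝ := fun x => if hx : ∃ L : ℝ, Tendsto (fun N => bx k N fun m => K (g m x)) 𝓕 (𝓝 L)
    then hx.choose else 0
  have hL : ∀ᵐ x ∂μ, Tendsto (fun N => bx k N fun m => K (g m x)) 𝓕 (𝓝 (L x)) := by
    filter_upwards [h K hK ⟨C, hC⟩] with x hx
    have e : L x = hx.choose := dif_pos hx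
    rw [e]
    exact hx.choose_spec
  obtain ⟨h1, h2, h3⟩ := int_limF hg hK (abs_nonneg C) hC' hK0 hL
  refine ⟨L, h1, h2, h3.trans ?_, ?_⟩
  · have : 0 ≤ ∫ x, K x ∂μ := integral_nonneg hK0
    linarith
  · filter_upwards [hL] with x hx c hc
    exact hx.eventually_lt_const hc

end maj

theorem wide_one {J : Type*} [DecidableEq J] {S : Finset J} {dep : J → Finset (Fin k)}
    {p : (Fin k → ℕ) → J → ℝ} (h : Wide S dep p) {d : J → Fin k} (hd : ∀ v ∈ S, d v ∈ dep v) :
    Wide S (fun v => {d v}) p :=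
  ⟨fun v hv l hl => by
    rw [Finset.mem_singleton] at hl
    subst hl
    exact h.line v hv _ (hd v hv), h.sep⟩

end Pool.Agent.U547.KQ
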